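import Pool.Agent.H306R2.EvenConst
import Pool.Agent.H379R2.Const6Main

set_option autoImplicit false

/-!
Explicit unconditional lower bounds for the `2k`-th moment of zeta on the critical line, for
every integer `k ≥ 6`.
-/

open Filter

theorem Pool.Agent.Results.MP_6a632e_nt.AllIntegerMoments.result (k : ℕ) (hk : 6 ≤ k) :
    ∀ᶠ T : ℝ in atTop,
      (21 / 20) ^ (k ^ 2) *
        ((∏' p : Nat.Primes, ((1 - 1 / (p : ℝ)) ^ (k ^ 2) *
          ∑' m : ℕ, ((m + k - 1).choose m : ℝ) ^ 2 * (1 / (p : ℝ)) ^ m)) /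
            ((k ^ 2).factorial : ℝ)) * Real.log T ^ (k ^ 2) ≤
      1 / T * ∫ t in (0:ℝ)..T, ‖riemannZeta (1 / 2 + t * Complex.I)‖ ^ (2 * k) := by
  obtain ⟨n, j, q, β, hA, hm⟩ := Pool.Agent.H379R2.Const6.const6 k hk
  have hk0 : (0 : ℝ) < k := by exact_mod_cast (by omega : 0 < k)
  have e1 : (((2 * k : ℕ) : ℝ)) / 2 = k := by push_cast; ring
  have haF : 0 < Pool.Agent.H306R2.aF (((2 * k : ℕ) : ℝ) / 2) :=
    Pool.Agent.H306R2.aF_pos (by rw [e1]; exact hk0)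
  have h := Pool.Agent.H306R2.master (2 * k) j (by omega) q β hA
    (Pool.Agent.H306R2.aF (((2 * k : ℕ) : ℝ) / 2) *
      ((21 / 20) ^ (k ^ 2) / ((k ^ 2).factorial : ℝ)))
    (mul_lt_mul_of_pos_left hm haF)
  have e2 : (((2 * k : ℕ) : ℝ)) ^ 2 / 4 = ((k ^ 2 : ℕ) : ℝ) := by push_cast; ring
  rw [e1, e2, Pool.Agent.H306R2.aF_nat k (by omega)] at h
  filter_upwards [h, eventually_gt_atTop 0] with T hT hT0
  rw [Real.rpow_natCast] at hT
  rw [one_div T, ← div_eq_inv_mul, le_div_iff₀ hT0]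
  refine le_trans (le_of_eq ?_) hT
  ring
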