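import Pool.Agent.H295R2.LM.RMain
import Pool.Agent.H379R2.ConstR
import Pool.Agent.H306R2.EvenConst

set_option autoImplicit false

/-!
Unconditional lower bounds for the high moments of zeta on the critical line over all intervals
`[T, T + U]`, `U ≥ (log T)^B`.
-/

open Filter

theorem Pool.Agent.Results.MP_6a632e_nt.LargeMomentsPolylogWindows.result (A : ℝ) (hA : 0 < A)
    (hA4 : A < 4 / Real.exp 1) :
    ∃ K : ℕ, ∀ k : ℕ, K ≤ k → ∃ B : ℝ, 0 < B ∧ ∀ᶠ T : ℝ in atTop, ∀ U : ℝ, Real.log T ^ B ≤ U →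
      A ^ (k ^ 2) * ((∏' p : Nat.Primes, ((1 - 1 / (p : ℝ)) ^ (k ^ 2) *
          ∑' m : ℕ, ((m + k - 1).choose m : ℝ) ^ 2 * (1 / (p : ℝ)) ^ m)) / ((k ^ 2).factorial : ℝ)) *
        Real.log U ^ (k ^ 2) ≤
      1 / U * ∫ t in T..(T + U), ‖riemannZeta (1 / 2 + t * Complex.I)‖ ^ (2 * k) := by
  obtain ⟨K, hK⟩ := Pool.Agent.H379R2.ConstR.constR'' A hA hA4
  obtain ⟨K', hK'⟩ := exists_nat_ge (max K 1)
  refine ⟨K', fun k hk => ?_⟩
  have hkR : max K 1 ≤ (k : ℝ) := hK'.trans (by exact_mod_cast hk)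
  have hkK : K ≤ ((k : ℚ) : ℝ) := by
    rw [Rat.cast_natCast]
    exact (le_max_left _ _).trans hkR
  have hk0 : (0:ℝ) < (k : ℝ) := lt_of_lt_of_le one_pos ((le_max_right _ _).trans hkR)
  have hk1 : 1 ≤ k := by exact_mod_cast hk0
  obtain ⟨n, j, q, β, ⟨h1, h2, h3, h4, h5, h6, h7⟩, h8⟩ := hK (k : ℚ) hkK
  rw [Rat.cast_natCast] at h3 h7 h8
  have haF : 0 < Pool.Agent.H306R2.aF (k : ℝ) := Pool.Agent.H306R2.aF_pos hk0
  have h9 : Pool.Agent.H306R2.aF (k : ℝ) * (A ^ ((k : ℝ) ^ 2) / Real.Gamma ((k : ℝ) ^ 2 + 1)) <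
      Pool.Agent.H306R2.aF (k : ℝ) * Pool.Agent.H306R2.mB (k : ℝ) j q β :=
    mul_lt_mul_of_pos_left h8 haF
  have e2 : ((k : ℝ)) ^ 2 = ((k ^ 2 : ℕ) : ℝ) := by push_cast; ring
  have e3 : (2 * (k : ℝ)) = ((2 * k : ℕ) : ℝ) := by push_cast; ring
  obtain ⟨B, hB, h⟩ := H295LM.masterX (k : ℝ) hk0 j q β ⟨h1, h2, h3, h4, h5, h6, h7⟩ _ h9
  refine ⟨B, hB, ?_⟩
  filter_upwards [h, eventually_gt_atTop 1] with T hT hT0 U hU
  have hU0 : 0 < U := lt_of_lt_of_le (Real.rpow_pos_of_pos (Real.log_pos hT0) _) hU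
  have hT' := hT U hU
  rw [e2, Real.Gamma_nat_eq_factorial, Pool.Agent.H306R2.aF_nat k hk1, Real.rpow_natCast,
    Real.rpow_natCast, e3] at hT'
  simp only [Real.rpow_natCast] at hT'
  rw [one_div U, ← div_eq_inv_mul, le_div_iff₀ hU0]
  refine le_trans (le_of_eq ?_) hT'
  ring
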